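import Pool.Agent.TH18.APC.TreeFinU

set_option autoImplicit false

/-!
# Asymptotic property C for direct unions of amalgams

Let `G 0, G 1, …` be groups with asymptotic property C (APC) with a common subgroup `C`.  The
amalgamated free product `P` of all of them is the direct union of the amalgamated free products
`P_n` of the groups `G 0, …, G n`.  The main case of the theorem (`C₀ = 1`, `L = 1`, `k = 0`) says: *if
`C` has finite asymptotic dimension, then all `P_n` and their union `P` have APC.*  For `C = 1`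
this is the case of infinite free products of groups with APC.

In general we are given
* a subgroup `C₀` of `C`, normal in all `G i`, such that all `G i / C₀` have APC (for example
  `C₀ = 1`);
* homomorphisms `ρ i` of the groups `G i` to a group `L` with APC which agree on `C` (for example
  `L = 1`, or `L = C` if `C` is a retract of each `G i`);
* numbers `k` and `e` such that for all `g = a_0 a_1 … a_(k-1)` in `P` with factors `a_j` in
  `G (i_j) \ C`, where `i_j ≠ i_(j+1)`, the image in `C / C₀` of `{c ∈ C | ρ c = 1, g⁻¹ c g ∈ C}`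
  has asymptotic dimension less than `e`.

The proof goes up the tree of the amalgam, as for two factors (`MP_1df68a_gt`); the groups `G i` have
APC uniformly in the sense which is needed, since for each finite set of elements all but
finitely many `G i` meet it only in `C`.
-/

namespace Pool.Agent.Results.MP_2c6f0d_gt.AmalgamUnion

/-- `d` is a proper left-invariant metric on the group `X`. -/
def ProperMetric {X : Type} [Group X] (d : X → X → ℝ) : Prop :=
  (∀ x y, d x y = d y x) ∧ (∀ x, d x x = 0) ∧ (∀ x y, d x y = 0 → x = y) ∧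
    (∀ x y z, d x z ≤ d x y + d y z) ∧ (∀ g x y, d (g * x) (g * y) = d x y) ∧
    (∀ r : ℝ, Set.Finite {x : X | d 1 x ≤ r})

/-- Asymptotic property C: for all positive reals `R 0, R 1, …` there are `n` and families
`U 0, …, U (n - 1)` of subsets of `X` such that `U k` is uniformly bounded, the points of
different members of `U k` are at distance larger than `R k`, and the families together cover
`X`. -/
def HasAPC {X : Type} (d : X → X → ℝ) : Prop :=
  ∀ R : ℕ → ℝ, (∀ k, 0 < R k) → ∃ n : ℕ, ∃ U : ℕ → Set (Set X),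
    (∀ k < n, ∃ B : ℝ, ∀ V ∈ U k, ∀ x ∈ V, ∀ y ∈ V, d x y ≤ B) ∧
    (∀ k < n, ∀ V ∈ U k, ∀ W ∈ U k, V ≠ W → ∀ x ∈ V, ∀ y ∈ W, R k < d x y) ∧
    (∀ x : X, ∃ k < n, ∃ V ∈ U k, x ∈ V)

/-- The subset `S` has asymptotic dimension less than `e`: for every `r > 0` it is covered by `e`
families of subsets of `X`, each of them uniformly bounded and such that the points of different
members are at distance larger than `r`. -/
def AsdimLT {X : Type} (d : X → X → ℝ) (S : Set X) (e : ℕ) : Prop :=
  ∀ r : ℝ, 0 < r → ∃ U : ℕ → Set (Set X),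
    (∀ k < e, ∃ B : ℝ, ∀ V ∈ U k, ∀ x ∈ V, ∀ y ∈ V, d x y ≤ B) ∧
    (∀ k < e, ∀ V ∈ U k, ∀ W ∈ U k, V ≠ W → ∀ x ∈ V, ∀ y ∈ W, r < d x y) ∧
    (∀ x ∈ S, ∃ k < e, ∃ V ∈ U k, x ∈ V)

/-- the product `a_0 a_1 … a_(k-1)` in the amalgamated product, where `a_j` is in the factor
`G (i j)` -/
noncomputable def altProd {G : ℕ → Type} [∀ i, Group (G i)] {C : Type} [Group C]
    (φ : ∀ i, C →* G i) (k : ℕ) (i : ℕ → ℕ) (a : ∀ j, G (i j)) : Monoid.PushoutI φ :=
  ((List.range k).map (fun j => Monoid.PushoutI.of (φ := φ) (i j) (a j))).prod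

/-- the subgroup of the amalgamated product generated by the factors `G 0, …, G n` -/
def part {G : ℕ → Type} [∀ i, Group (G i)] {C : Type} [Group C]
    (φ : ∀ i, C →* G i) (n : ℕ) : Subgroup (Monoid.PushoutI φ) :=
  Subgroup.closure {x | ∃ i ≤ n, ∃ g : G i, Monoid.PushoutI.of (φ := φ) i g = x}

theorem apcon_of {X : Type} [Group X] (h : ∃ d : X → X → ℝ, ProperMetric d ∧ HasAPC d) :
    Pool.Agent.TH18.APC.APCon (Set.univ : Set X) := by
  obtain ⟨d, ⟨-, -, -, -, hinv, hprop⟩, hA⟩ := h
  refine Pool.Agent.TH18.APC.APCon_of_metric Set.univ d hinv hprop ?_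
  intro R hR
  obtain ⟨n, U, h1, h2, h3⟩ := hA R hR
  exact ⟨n, U, h1, h2, fun x _ => h3 x⟩

/-- **APC of direct unions of amalgams.**  Let `G 0, G 1, …` be groups with APC with a common
subgroup `C`, let `C₀` be a subgroup of `C` which is normal in all `G i` and such that the groups
`G i / C₀` have APC, and let `ρ i` be homomorphisms of `G i` to a group `L` with APC which agree on
`C`.  Suppose that for all products `g = a_0 ⋯ a_(k-1)` of elements `a_j` of `G (i_j) \ C` with
`i_j ≠ i_(j+1)` the image in `C / C₀` of the group of all `c` in `C` with `ρ c = 1` and `g⁻¹ c g`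
in `C` has asymptotic dimension less than `e`.  Then the amalgamated product of all `G i` over `C`
is the union of the increasing subgroups `part φ n` generated by `G 0, …, G n`, and for
every proper left-invariant metric it has APC and each `part φ n` has APC. -/
theorem result (G : ℕ → Type) [∀ i, Group (G i)] (C : Type) [Group C] (φ : ∀ i, C →* G i)
    (hφ : ∀ i, Function.Injective (φ i))
    (hG : ∀ i, ∃ d : G i → G i → ℝ, ProperMetric d ∧ HasAPC d)
    (C₀ : Subgroup C) [C₀.Normal] [∀ i, (C₀.map (φ i)).Normal]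
    (hG₀ : ∀ i, ∃ d : (G i ⧸ C₀.map (φ i)) → (G i ⧸ C₀.map (φ i)) → ℝ,
      ProperMetric d ∧ HasAPC d)
    (L : Type) [Group L] (hL : ∃ d : L → L → ℝ, ProperMetric d ∧ HasAPC d)
    (ρ : ∀ i, G i →* L) (hρ : ∀ i j c, ρ i (φ i c) = ρ j (φ j c))
    (dC : (C ⧸ C₀) → (C ⧸ C₀) → ℝ) (hdC : ProperMetric dC) (k e : ℕ)
    (hC : ∀ (i : ℕ → ℕ) (a : ∀ j, G (i j)), (∀ j < k, a j ∉ Set.range (φ (i j))) →
      (∀ j, j + 1 < k → i j ≠ i (j + 1)) →
      AsdimLT dC ((QuotientGroup.mk : C → C ⧸ C₀) '' {c | ρ 0 (φ 0 c) = 1 ∧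
        ∃ c' : C, (altProd φ k i a)⁻¹ * Monoid.PushoutI.base φ c * altProd φ k i a =
          Monoid.PushoutI.base φ c'}) e)
    (d : Monoid.PushoutI φ → Monoid.PushoutI φ → ℝ) (hd : ProperMetric d) :
    Monotone (part φ) ∧ (∀ x, ∃ n, x ∈ part φ n) ∧
      (∀ n, HasAPC (fun x y : part φ n => d x y)) ∧ HasAPC d := by
  let R : Monoid.PushoutI φ →* L := Monoid.PushoutI.lift ρ ((ρ 0).comp (φ 0)) (by
    intro i
    ext c
    exact hρ i 0 c)
  have hR : ∀ c, R (Monoid.PushoutI.base φ c) = ρ 0 (φ 0 c) := by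
    intro c
    show (Monoid.PushoutI.lift _ _ _) (Monoid.PushoutI.base φ c) = _
    rw [Monoid.PushoutI.lift_base]
    rfl
  have h1 : Pool.Agent.TH18.APC.APCon (Set.univ : Set (Monoid.PushoutI φ)) := by
    refine Pool.Agent.TH18.APC.APC_pushU hφ C₀ R (fun i => apcon_of (hG i))
      (fun i => apcon_of (hG₀ i)) (apcon_of hL) k e ?_
    intro i a h1 h2
    obtain ⟨-, -, -, -, hinv, hprop⟩ := hdC
    refine (Pool.Agent.TH18.APC.FinDec_of_metric _ dC hinv hprop e (hC i a h1 h2)).mono ?_
    rintro _ ⟨c, ⟨h3, c', h4⟩, rfl⟩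
    refine ⟨c, ⟨(hR c).symm.trans h3, c', ?_⟩, rfl⟩
    show (altProd φ k i a)⁻¹ * Monoid.PushoutI.base φ c * altProd φ k i a = _
    have h5 : Monoid.PushoutI.base φ c * altProd φ k i a =
      altProd φ k i a * Monoid.PushoutI.base φ c' := h4
    rw [mul_assoc, h5, inv_mul_cancel_left]
  have hmono : Monotone (part φ) := by
    intro m n hmn
    refine Subgroup.closure_mono ?_
    rintro x ⟨i, hi, g, rfl⟩
    exact ⟨i, hi.trans hmn, g, rfl⟩
  have hof : ∀ i (g : G i), Monoid.PushoutI.of (φ := φ) i g ∈ part φ i := fun i g =>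
    Subgroup.subset_closure ⟨i, le_rfl, g, rfl⟩
  have hAPC : HasAPC d := by
    obtain ⟨-, -, -, -, hinv, hprop⟩ := hd
    intro r _
    obtain ⟨n, U, B, h2, h3, h4⟩ := Pool.Agent.TH18.APC.metric_of_APC h1 d hinv hprop r
    exact ⟨n, U, fun k hk => ⟨B, h2 k hk⟩, h3, h4⟩
  refine ⟨hmono, ?_, ?_, hAPC⟩
  · intro x
    induction x using Monoid.PushoutI.induction_on with
    | of i g => exact ⟨i, hof i g⟩
    | base c =>
      rw [← Monoid.PushoutI.of_apply_eq_base φ 0]
      exact ⟨0, hof 0 _⟩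
    | mul x y hx hy =>
      obtain ⟨m, hm⟩ := hx
      obtain ⟨n, hn⟩ := hy
      exact ⟨max m n, (part φ (max m n)).mul_mem (hmono (le_max_left _ _) hm)
        (hmono (le_max_right _ _) hn)⟩
  · intro n r hr
    obtain ⟨m, U, h2, h3, h4⟩ := hAPC r hr
    refine ⟨m, fun j => (fun V : Set (Monoid.PushoutI φ) => {x : part φ n | (x : Monoid.PushoutI φ) ∈ V}) '' U j,
      ?_, ?_, ?_⟩
    · intro j hj
      obtain ⟨B, hB⟩ := h2 j hj
      refine ⟨B, ?_⟩
      rintro _ ⟨V, hV, rfl⟩ x hx y hy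
      exact hB V hV x hx y hy
    · rintro j hj _ ⟨V, hV, rfl⟩ _ ⟨W, hW, rfl⟩ hne x hx y hy
      refine h3 j hj V hV W hW ?_ x hx y hy
      rintro rfl
      exact hne rfl
    · intro x
      obtain ⟨j, hj, V, hV, hx⟩ := h4 x
      exact ⟨j, hj, _, ⟨V, hV, rfl⟩, hx⟩

end Pool.Agent.Results.MP_2c6f0d_gt.AmalgamUnion
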