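import Pool.Agent.H954R3.DUGroup
import Pool.Agent.TH18.APC.Series

set_option autoImplicit false

/-!
# Asymptotic property C for unions of groups of polynomial growth and for finite series

The metric notions (proper left-invariant metric, asymptotic property C) are those of
`Pool.Agent.H954R3.DU`: `APC d` is asymptotic property C with set distances given by infima.

`LocPoly G` : every finite subset of `G` has polynomial growth.

Ingredients.
* Extension theorem (`Pool.Agent.TH18.APC.APC_ext`): if the target and the kernel of a homomorphism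
  have asymptotic property C, so does its source.
* A group all of whose finite subsets have polynomial growth has asymptotic property C
  (`Pool.Agent.TH18.APC.APC_of_locPoly`).  A maximal separated net at a large doubling scale of the
  growth function, and a sphere of random radius around each net point.  By the local lemma the
  radii can be chosen so that no ball of a given radius `R` meets more spheres than the growth
  degree of the first scale, although `R` is much larger than the first scale.  The number of colours
  needed for the points on the spheres is then bounded independently of `R`.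
-/

namespace Pool.Agent.Results.MP_2c6f0d_gt.SeriesUnion

open Pool.Agent.H954R3.DU

/-- Every finite subset of `G` has polynomial growth. -/
def LocPoly (G : Type) [Group G] : Prop :=
  ∀ Φ : Set G, Φ.Finite → ∃ C q : ℕ, ∀ n : ℕ,
    {x : G | ∃ l : List G, l.length = n ∧ (∀ a ∈ l, a ∈ Φ) ∧ l.prod = x}.ncard ≤ C * (n + 1) ^ q

open Classical Pointwise in
theorem locPoly_conv (G : Type) [Group G] (h : LocPoly G) : Pool.Agent.TH18.AC.LocPoly G := by
  intro Φ
  obtain ⟨C, q, hC⟩ := h Φ Φ.finite_toSet
  refine ⟨C, q, fun n => ?_⟩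
  have h1 : {x : G | ∃ l : List G, l.length = n ∧ (∀ a ∈ l, a ∈ (Φ : Set G)) ∧ l.prod = x} =
      ((Φ ^ n : Finset G) : Set G) := by
    induction n with
    | zero =>
      ext x
      rw [pow_zero]
      constructor
      · rintro ⟨l, hl, -, rfl⟩
        rw [List.length_eq_zero_iff.1 hl]
        simp
      · intro hx
        refine ⟨[], rfl, by simp, ?_⟩
        have : x = 1 := by simpa using hx
        rw [this, List.prod_nil]
    | succ n ih =>
      ext x
      constructor
      · rintro ⟨l, hl, hl2, rfl⟩
        cases l with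
        | nil => simp at hl
        | cons a l =>
          rw [Finset.mem_coe, pow_succ', List.prod_cons]
          refine Finset.mul_mem_mul (Finset.mem_coe.1 (hl2 a List.mem_cons_self)) ?_
          have h2 : l.prod ∈ ((Φ ^ n : Finset G) : Set G) := by
            rw [← ih]
            exact ⟨l, by simpa using hl, fun b hb => hl2 b (List.mem_cons_of_mem a hb), rfl⟩
          exact Finset.mem_coe.1 h2
      · intro hx
        rw [Finset.mem_coe, pow_succ'] at hx
        obtain ⟨a, ha, b, hb, rfl⟩ := Finset.mem_mul.1 hx
        have h2 : b ∈ ((Φ ^ n : Finset G) : Set G) := Finset.mem_coe.2 hb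
        rw [← ih] at h2
        obtain ⟨l, hl, hl2, rfl⟩ := h2
        refine ⟨a :: l, by simp [hl], ?_, List.prod_cons⟩
        intro c hc
        rcases List.mem_cons.1 hc with rfl | hc
        · exact ha
        · exact hl2 c hc
  have h2 := hC n
  rw [h1, Set.ncard_coe_finset] at h2
  exact h2

theorem apcon_of_metric {Q : Type} [Group Q] (δ : Q → Q → ℝ) (hδ : ProperLeftInvariantMetric δ)
    (h : APC δ) : Pool.Agent.TH18.APC.APCon (Set.univ : Set Q) := by
  refine Pool.Agent.TH18.APC.APCon_of_metric Set.univ δ hδ.left hδ.proper ?_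
  intro R hR
  have hpos : ∀ i, 0 < ∑ j ∈ Finset.range (i + 1), R j := fun i =>
    Finset.sum_pos (fun j _ => hR j) ⟨0, Finset.mem_range.2 (Nat.succ_pos i)⟩
  have hmono : Monotone (fun i => ∑ j ∈ Finset.range (i + 1), R j) := by
    refine monotone_nat_of_le_succ (fun i => ?_)
    show ∑ j ∈ Finset.range (i + 1), R j ≤ ∑ j ∈ Finset.range (i + 1 + 1), R j
    rw [Finset.sum_range_succ _ (i + 1)]
    have := hR (i + 1)
    linarith
  obtain ⟨n, U, h1, h2⟩ := h _ hpos hmono
  refine ⟨n, U, fun i hi => (h1 i hi).1, ?_, fun x _ => h2 x⟩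
  intro i hi V hV W hW hne x hx y hy
  obtain ⟨ε, hε, hε'⟩ := (h1 i hi).2 V hV W hW hne
  have h3 : R i ≤ ∑ j ∈ Finset.range (i + 1), R j :=
    Finset.single_le_sum (fun j _ => (hR j).le) (Finset.mem_range.2 (Nat.lt_succ_self i))
  have h4 := hε' x hx y hy
  linarith

theorem apc_of_apcon {G : Type} [Group G] (d : G → G → ℝ) (hd : ProperLeftInvariantMetric d)
    (h : Pool.Agent.TH18.APC.APCon (Set.univ : Set G)) : APC d := by
  intro R _ _
  obtain ⟨n, U, B, h1, h2, h3⟩ := Pool.Agent.TH18.APC.metric_of_APC h d hd.left hd.proper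
    (fun i => R i + 1)
  refine ⟨n, U, fun i hi => ⟨⟨B, h1 i hi⟩, ?_⟩, h3⟩
  intro V hV W hW hne
  exact ⟨R i + 1, by linarith, fun x hx y hy => (h2 i hi V hV W hW hne x hx y hy).le⟩

/-- Let `d` be a proper left-invariant metric on `G`, and let `⊥ = N 0 ≤ N 1 ≤ … ≤ N r = ⊤` be
subgroups such that `N i` is the kernel of a homomorphism from `N (i + 1)` to a group `Q` which
is abelian, or the union of an increasing sequence of subgroups in each of which all finite
subsets have polynomial growth, or which has asymptotic property C for some proper left-invariant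
metric.  Then `G` has asymptotic property C. -/
theorem result {G : Type} [Group G] (d : G → G → ℝ) (hd : ProperLeftInvariantMetric d)
    (r : ℕ) (N : ℕ → Subgroup G) (h0 : N 0 = ⊥) (hr : N r = ⊤)
    (h : ∀ i < r, N i ≤ N (i + 1) ∧ ∃ (Q : Type) (_ : Group Q) (f : N (i + 1) →* Q),
      (∀ x : N (i + 1), f x = 1 ↔ (x : G) ∈ N i) ∧
      ((∀ a b : Q, a * b = b * a) ∨
        (∃ K : ℕ → Subgroup Q, Monotone K ∧ (∀ g : Q, ∃ n, g ∈ K n) ∧ ∀ n, LocPoly (K n)) ∨
        ∃ δ : Q → Q → ℝ, ProperLeftInvariantMetric δ ∧ APC δ)) :
    APC d := by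
  refine apc_of_apcon d hd (Pool.Agent.TH18.APC.APC_series N r h0 hr ?_)
  intro i hi
  obtain ⟨hle, Q, _, f, hf, hQ⟩ := h i hi
  refine ⟨hle, Q, inferInstance, f, hf, ?_⟩
  rcases hQ with hcomm | ⟨K, hmono, hun, hK⟩ | ⟨δ, hδ, hA⟩
  · let _ : CommGroup Q := { (inferInstance : Group Q) with mul_comm := hcomm }
    exact Pool.Agent.TH18.APC.APC_of_locPoly (Pool.Agent.TH18.APC.LocPoly_comm Q)
  · exact Pool.Agent.TH18.APC.APC_of_locPoly
      (Pool.Agent.TH18.APC.LocPoly_iUnion K hmono hun (fun n => locPoly_conv _ (hK n)))
  · exact apcon_of_metric δ hδ hA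

end Pool.Agent.Results.MP_2c6f0d_gt.SeriesUnion
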